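import Pool.Agent.Lib.MP_39c2b7_co.Interfaces

/-!
# E2: a placed dominated pattern cannot occur in a minimal counterexample
-/

namespace StrongArb.H36

open Classical

/-- homomorphisms preserve reachability -/
theorem reach_map {α β : Type} {H : SimpleGraph α} {H' : SimpleGraph β} (f : α → β)
    (hadj : ∀ x y, H.Adj x y → H'.Adj (f x) (f y)) {u v : α} (h : H.Reachable u v) :
    H'.Reachable (f u) (f v) :=
  h.map (⟨f, fun {x y} hxy => hadj x y hxy⟩ : H →g H')

/-- if there is an edge-injective homomorphism into a forest, the graph is a forest -/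
theorem acyclic_of_map {α β : Type} {H : SimpleGraph α} {H' : SimpleGraph β} (f : α → β)
    (hadj : ∀ x y, H.Adj x y → H'.Adj (f x) (f y))
    (hinj : ∀ x y x' y', H.Adj x y → H.Adj x' y' → s(f x, f y) = s(f x', f y') →
      s(x, y) = s(x', y')) (h : H'.IsAcyclic) : H.IsAcyclic := by
  rw [SimpleGraph.isAcyclic_iff_forall_adj_isBridge] at h ⊢
  intro v w hvw
  rw [SimpleGraph.isBridge_iff]
  intro hr
  have h1 := h (hadj v w hvw)
  rw [SimpleGraph.isBridge_iff] at h1
  apply h1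
  refine reach_map f ?_ hr
  intro x y hxy
  rw [SimpleGraph.deleteEdges_adj] at hxy ⊢
  refine ⟨hadj x y hxy.1, fun hc => hxy.2 ?_⟩
  rw [Set.mem_singleton_iff] at hc ⊢
  exact hinj x y v w hxy.1 hvw hc

section

variable {P : Pat}

theorem consIn_mem {l : List ℕ} {a b : ℕ} (h : ConsIn l a b) : a ∈ l ∧ b ∈ l := by
  obtain ⟨i, j, hi, hj, rfl, rfl, _⟩ := h
  exact ⟨List.getElem_mem hi, List.getElem_mem hj⟩

theorem K_lt (hW : P.WF) {x y : ℕ} (h : P.K.Adj x y) : x < P.N ∧ y < P.N := by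
  obtain ⟨_, v, hv, h⟩ := h
  rcases h with ⟨rfl, h⟩ | ⟨rfl, h⟩ | h | h
  · exact ⟨lt_of_lt_of_le hv hW.le, hW.lt _ hv _ h⟩
  · exact ⟨hW.lt _ hv _ h, lt_of_lt_of_le hv hW.le⟩
  · exact ⟨hW.lt _ hv _ (consIn_mem h).1, hW.lt _ hv _ (consIn_mem h).2⟩
  · exact ⟨hW.lt _ hv _ (consIn_mem h).2, hW.lt _ hv _ (consIn_mem h).1⟩

theorem adj_of_consIn {V : Type} {G : SimpleGraph V} {ψ : ℕ → V} {v : V} {l : List ℕ}
    (hl : IsLink G v (l.map ψ)) {a b : ℕ} (h : ConsIn l a b) : G.Adj (ψ a) (ψ b) := by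
  obtain ⟨i, j, hi, hj, rfl, rfl, hc⟩ := h
  have h1 := (hl.adj i j (by simpa using hi) (by simpa using hj)).2 (by simpa using hc)
  simpa using h1

theorem K_adj {V : Type} {G : SimpleGraph V} {ψ : ℕ → V} (hP : P.Placed G ψ) {x y : ℕ}
    (h : P.K.Adj x y) : G.Adj (ψ x) (ψ y) := by
  obtain ⟨_, v, hv, h⟩ := h
  have hl := hP.link v hv
  rcases h with ⟨rfl, h⟩ | ⟨rfl, h⟩ | h | h
  · exact (hl.mem _).1 (List.mem_map_of_mem h)
  · exact ((hl.mem _).1 (List.mem_map_of_mem h)).symm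
  · exact adj_of_consIn hl h
  · exact (adj_of_consIn hl h).symm

end

theorem sound (h1 : ReplaceStatement) : SoundStatement := by
  intro V G hG P ψ hW hD hP
  have hinj : ∀ a b, a < P.N → b < P.N → ψ a = ψ b → a = b := hP.inj
  -- the label of a vertex
  obtain ⟨lab, hlab⟩ : ∃ lab : V → ℕ, ∀ a, a < P.N → lab (ψ a) = a := by
    refine ⟨fun v => if h : ∃ a, a < P.N ∧ ψ a = v then h.choose else 0, ?_⟩
    intro a ha
    have h : ∃ a', a' < P.N ∧ ψ a' = ψ a := ⟨a, ha, rfl⟩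
    simp only [dif_pos h]
    exact hinj _ _ h.choose_spec.1 ha h.choose_spec.2
  -- representatives
  obtain ⟨rep, hrep⟩ : ∃ rep : ℕ → ℕ, ∀ a, a < P.N →
      rep (P.block a) < P.N ∧ P.block (rep (P.block a)) = P.block a := by
    refine ⟨fun b => if h : ∃ a, a < P.N ∧ P.block a = b then h.choose else 0, ?_⟩
    intro a ha
    have h : ∃ a', a' < P.N ∧ P.block a' = P.block a := ⟨a, ha, rfl⟩
    simp only [dif_pos h]
    exact h.choose_spec
  have hrepinj : ∀ a b, a < P.N → b < P.N → ψ (rep (P.block a)) = ψ (rep (P.block b)) →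
      P.block a = P.block b := by
    intro a b ha hb h
    have h2 := hinj _ _ (hrep a ha).1 (hrep b hb).1 h
    rw [← (hrep a ha).2, ← (hrep b hb).2, h2]
  -- the contraction
  obtain ⟨phi, hphi1, hphi2⟩ : ∃ phi : V → V, (∀ a, a < P.N → phi (ψ a) = ψ (rep (P.block a))) ∧
      (∀ v, (¬ ∃ a, a < P.N ∧ ψ a = v) → phi v = v) := by
    refine ⟨fun v => if (∃ a, a < P.N ∧ ψ a = v) then ψ (rep (P.block (lab v))) else v, ?_, ?_⟩
    · intro a ha
      have h : ∃ a', a' < P.N ∧ ψ a' = ψ a := ⟨a, ha, rfl⟩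
      simp only [if_pos h, hlab a ha]
    · intro v hv
      simp only [if_neg hv]
  -- if `phi u` is the image of a representative then `u` is an image of a label of the block
  have hphi3 : ∀ u a, a < P.N → phi u = ψ (rep (P.block a)) →
      ∃ x, x < P.N ∧ ψ x = u ∧ P.block x = P.block a := by
    intro u a ha h
    by_cases hu : ∃ x, x < P.N ∧ ψ x = u
    · obtain ⟨x, hx, rfl⟩ := hu
      rw [hphi1 x hx] at h
      exact ⟨x, hx, rfl, hrepinj x a hx ha h⟩
    · rw [hphi2 u hu] at h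
      exact absurd ⟨_, (hrep a ha).1, h.symm⟩ hu
  have hphiinj : ∀ u v, phi u = phi v → u ≠ v → ∃ x y, x < P.N ∧ y < P.N ∧ ψ x = u ∧ ψ y = v ∧
      x ≠ y ∧ P.block x = P.block y := by
    intro u v huv hne
    by_cases hu : ∃ x, x < P.N ∧ ψ x = u
    · obtain ⟨x, hx, rfl⟩ := hu
      rw [hphi1 x hx] at huv
      obtain ⟨y, hy, hyv, hb⟩ := hphi3 v x hx huv.symm
      refine ⟨x, y, hx, hy, rfl, hyv, ?_, hb.symm⟩
      rintro rfl
      exact hne hyv
    · by_cases hv : ∃ x, x < P.N ∧ ψ x = v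
      · obtain ⟨x, hx, rfl⟩ := hv
        rw [hphi1 x hx] at huv
        obtain ⟨y, hy, hyv, hb⟩ := hphi3 u x hx huv
        exact absurd ⟨y, hy, hyv⟩ hu
      · rw [hphi2 u hu, hphi2 v hv] at huv
        exact absurd huv hne
  -- connected fibres
  have hconn : ∀ a ∈ Set.range phi, FibreConn G phi a := by
    rintro _ ⟨v, rfl⟩
    unfold FibreConn
    have hne : Nonempty ({w | phi w = phi v} : Set V) := ⟨⟨v, rfl⟩⟩
    by_cases hv : ∃ x, x < P.N ∧ ψ x = v
    · obtain ⟨x, hx, rfl⟩ := hv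
      refine ⟨?_⟩
      rintro ⟨u, hu⟩ ⟨w, hw⟩
      have hu' : phi u = ψ (rep (P.block x)) := by rw [← hphi1 x hx]; exact hu
      have hw' : phi w = ψ (rep (P.block x)) := by rw [← hphi1 x hx]; exact hw
      obtain ⟨y, hy, rfl, hyb⟩ := hphi3 u x hx hu'
      obtain ⟨z, hz, rfl, hzb⟩ := hphi3 w x hx hw'
      have key : ∀ z', Relation.ReflTransGen (fun x' y' => P.K.Adj x' y' ∧
          (x' < P.nI ∨ y' < P.nI) ∧ P.block x' = P.block y ∧ P.block y' = P.block y ∧
          x' < P.N ∧ y' < P.N) y z' → ∃ hz' : phi (ψ z') = phi (ψ x),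
            (G.induce {w | phi w = phi (ψ x)}).Reachable ⟨ψ y, hu⟩ ⟨ψ z', hz'⟩ := by
        intro z' hr
        induction hr with
        | refl => exact ⟨hu, SimpleGraph.Reachable.refl _⟩
        | @tail b c hab hbc ih =>
          obtain ⟨hb, hreach⟩ := ih
          obtain ⟨hK, _, hb1, hb2, hbN, hcN⟩ := hbc
          have hc : phi (ψ c) = phi (ψ x) := by
            rw [hphi1 c hcN, hb2, hyb, hphi1 x hx]
          refine ⟨hc, hreach.trans ?_⟩
          apply SimpleGraph.Adj.reachable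
          exact K_adj hP hK
      obtain ⟨_, h⟩ := key z (hW.conn y z hy hz (hyb.trans hzb.symm))
      exact h
    · have hsub : ∀ w, phi w = phi v → w = v := by
        intro w hw
        by_contra hwv
        obtain ⟨_, y, _, hy, _, hyv, _⟩ := hphiinj w v hw hwv
        exact hv ⟨y, hy, hyv⟩
      refine ⟨?_⟩
      rintro ⟨u, hu⟩ ⟨w, hw⟩
      have e1 := hsub u hu
      have e2 := hsub w hw
      subst e1
      subst e2
      exact SimpleGraph.Reachable.refl _
  have hninj : ¬ Function.Injective phi := by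
    intro hphi
    obtain ⟨a, b, ha, hb, hne, hbl⟩ := hW.merge
    apply hne
    apply hinj a b ha hb
    apply hphi
    rw [hphi1 a ha, hphi1 b hb, hbl]
  obtain ⟨p', hp'⟩ := hG.min phi hninj hconn
  -- colours of the blocks
  have hQ : ∀ b c, P.Q.Adj b c → (contract G phi).Adj (ψ (rep b)) (ψ (rep c)) := by
    rintro _ _ ⟨hbc, x, y, hxy, rfl, rfl⟩
    obtain ⟨hx, hy⟩ := K_lt hW hxy
    refine ⟨fun h => hbc (hrepinj x y hx hy h), ψ x, ψ y, hphi1 x hx, hphi1 y hy, K_adj hP hxy⟩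
  have hQrep : ∀ b c, P.Q.Adj b c → ∀ b' c', P.Q.Adj b' c' → ψ (rep b) = ψ (rep b') →
      b = b' := by
    rintro _ _ ⟨hbc, x, y, hxy, rfl, rfl⟩ _ _ ⟨hbc', x', y', hxy', rfl, rfl⟩ h
    exact hrepinj x x' (K_lt hW hxy).1 (K_lt hW hxy').1 h
  have hgc : Good P.Q (fun b => p' (ψ (rep b))) := by
    refine ⟨fun b c hbc => hp'.proper _ _ (hQ b c hbc), fun s => ?_⟩
    refine acyclic_of_map (H' := slopeGraph (contract G phi) p' s) (fun b => ψ (rep b)) ?_ ?_
      (hp'.forest s)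
    · intro x y hxy
      exact ⟨hQ x y hxy.1, hxy.2⟩
    · intro x y x' y' hxy hxy' h
      rw [Sym2.eq_iff] at h ⊢
      rcases h with ⟨ha, hb⟩ | ⟨ha, hb⟩
      · left
        exact ⟨hQrep x y hxy.1 x' y' hxy'.1 ha, hQrep y x hxy.1.symm y' x' hxy'.1.symm hb⟩
      · right
        exact ⟨hQrep x y hxy.1 y' x' hxy'.1.symm ha, hQrep y x hxy.1.symm x' y' hxy'.1 hb⟩
  obtain ⟨e, her, hge, hreach⟩ := hD _ hgc
  -- the new map
  obtain ⟨p, hp1, hp2⟩ : ∃ p : V → Pt, (∀ a, a < P.N → p (ψ a) = e a) ∧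
      (∀ v, (¬ ∃ a, a < P.N ∧ ψ a = v) → p v = p' v) := by
    refine ⟨fun v => if (∃ a, a < P.N ∧ ψ a = v) then e (lab v) else p' v, ?_, ?_⟩
    · intro a ha
      have h : ∃ a', a' < P.N ∧ ψ a' = ψ a := ⟨a, ha, rfl⟩
      simp only [if_pos h, hlab a ha]
    · intro v hv
      simp only [if_neg hv]
  -- `K`-edges and exterior edges
  obtain ⟨KE, hKE⟩ : ∃ KE : V → V → Prop, ∀ u v, KE u v ↔
      ∃ x y, ψ x = u ∧ ψ y = v ∧ P.K.Adj x y := ⟨_, fun _ _ => Iff.rfl⟩
  have hKEs : ∀ u v, KE u v → KE v u := by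
    intro u v h
    rw [hKE] at h ⊢
    obtain ⟨x, y, hx, hy, h⟩ := h
    exact ⟨y, x, hy, hx, h.symm⟩
  have hint : ∀ u v, G.Adj u v → ¬ KE u v → ∀ a, a < P.nI → ψ a ≠ u := by
    rintro _ v huv hK a ha rfl
    have h2 := (hP.link a ha).mem v
    rw [List.mem_map] at h2
    obtain ⟨b, hb, rfl⟩ := h2.2 huv
    apply hK
    rw [hKE]
    refine ⟨a, b, rfl, rfl, ?_, a, ha, Or.inl ⟨rfl, hb⟩⟩
    rintro rfl
    exact hW.irrefl a ha hb
  -- an end of an exterior edge is no label or the image of a ring label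
  have hring : ∀ u v, G.Adj u v → ¬ KE u v → ∀ a, a < P.N → ψ a = u → P.IsRing a := by
    intro u v huv hK a ha hau
    refine ⟨?_, ha⟩
    by_contra h
    exact hint u v huv hK a (by omega) hau
  have hpphi : ∀ u v, G.Adj u v → ¬ KE u v → p u = p' (phi u) := by
    intro u v huv hK
    by_cases hu : ∃ a, a < P.N ∧ ψ a = u
    · obtain ⟨a, ha, rfl⟩ := hu
      rw [hp1 a ha, her a (hring _ v huv hK a ha rfl), hphi1 a ha]
    · rw [hp2 u hu, hphi2 u hu]
  -- images of exterior edges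
  have hext : ∀ u v, G.Adj u v → ¬ KE u v → (contract G phi).Adj (phi u) (phi v) ∧
      ∀ b c, P.Q.Adj b c → phi u = ψ (rep b) → phi v = ψ (rep c) → False := by
    intro u v huv hK
    have hnon : ∀ r r', r < P.N → r' < P.N → ψ r = u → ψ r' = v →
        ¬ (P.block r = P.block r' ∨ P.Q.Adj (P.block r) (P.block r')) := by
      rintro r r' hr hr' rfl rfl h
      have hr1 := hring _ _ huv hK r hr rfl
      have hr2 := hring _ _ huv.symm (fun h => hK (hKEs _ _ h)) r' hr' rfl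
      refine hP.nonadj r r' hr1 hr2 ?_ ?_ ?_ huv
      · rintro rfl
        exact huv.ne rfl
      · intro h3
        apply hK
        rw [hKE]
        exact ⟨r, r', rfl, rfl, h3⟩
      · rcases h with h | h
        · exact Or.inl h
        · exact Or.inr (Or.inl h)
    refine ⟨⟨?_, u, v, rfl, rfl, huv⟩, ?_⟩
    · intro h
      obtain ⟨x, y, hx, hy, hxu, hyv, _, hbl⟩ := hphiinj u v h huv.ne
      exact hnon x y hx hy hxu hyv (Or.inl hbl)
    · rintro _ _ ⟨hbc, x, y, hxy, rfl, rfl⟩ h2 h3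
      obtain ⟨hx, hy⟩ := K_lt hW hxy
      obtain ⟨x', hx', hx'u, hxb⟩ := hphi3 u x hx h2
      obtain ⟨y', hy', hy'u, hyb⟩ := hphi3 v y hy h3
      refine hnon x' y' hx' hy' hx'u hy'u (Or.inr ?_)
      rw [hxb, hyb]
      exact ⟨hbc, x, y, hxy, rfl, rfl⟩
  -- ring labels of one block are not adjacent in `K`
  have hnoK : ∀ r r', P.IsRing r → P.IsRing r' → P.block r = P.block r' → ¬ P.K.Adj r r' := by
    intro r r' hr hr' hbl hK
    apply hge.proper r r' hK
    rw [her r hr, her r' hr', hbl]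
  -- edge injectivity, oriented version
  have hedge : ∀ u v u' v', G.Adj u v → ¬ KE u v → G.Adj u' v' → ¬ KE u' v' →
      phi u = phi u' → phi v = phi v' → u = u' ∧ v = v' := by
    intro u v u' v' huv hK huv' hK' e1 e2
    have hK2 : ¬ KE v u := fun h => hK (hKEs _ _ h)
    have hK2' : ¬ KE v' u' := fun h => hK' (hKEs _ _ h)
    by_cases hu : u = u'
    · subst hu
      refine ⟨rfl, ?_⟩
      by_contra hv
      obtain ⟨t, t', ht, ht', rfl, rfl, hne, hbl⟩ := hphiinj v v' e2 hv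
      have ht1 := hring _ _ huv.symm hK2 t ht rfl
      have ht1' := hring _ _ huv'.symm hK2' t' ht' rfl
      obtain ⟨a, ha, rfl, haK, _⟩ := hP.common t t' ht1 ht1' hne (hnoK t t' ht1 ht1' hbl) hbl u huv huv'
      exact hK ((hKE _ _).2 ⟨a, t, rfl, rfl, haK⟩)
    · obtain ⟨r, r', hr, hr', rfl, rfl, hner, hblr⟩ := hphiinj u u' e1 hu
      have hr1 := hring _ _ huv hK r hr rfl
      have hr1' := hring _ _ huv' hK' r' hr' rfl
      by_cases hv : v = v'
      · subst hv
        exfalso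
        obtain ⟨a, ha, rfl, haK, _⟩ := hP.common r r' hr1 hr1' hner (hnoK r r' hr1 hr1' hblr) hblr v
          huv.symm huv'.symm
        exact hK2 ((hKE _ _).2 ⟨a, r, rfl, rfl, haK⟩)
      · exfalso
        obtain ⟨t, t', ht, ht', rfl, rfl, hne, hbl⟩ := hphiinj v v' e2 hv
        have ht1 := hring _ _ huv.symm hK2 t ht rfl
        have ht1' := hring _ _ huv'.symm hK2' t' ht' rfl
        refine hP.nonadj r t hr1 ht1 ?_ ?_ (Or.inr (Or.inr ⟨?_, ?_⟩)) huv
        · rintro rfl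
          exact huv.ne rfl
        · intro h
          exact hK ((hKE _ _).2 ⟨r, t, rfl, rfl, h⟩)
        · exact ⟨r', hr1', fun h => hner h.symm, hblr.symm⟩
        · exact ⟨t', ht1', fun h => hne h.symm, hbl.symm⟩
  -- `p` is good
  apply hG.bad
  refine ⟨p, ?_, ?_⟩
  · intro u v huv
    by_cases hK : KE u v
    · rw [hKE] at hK
      obtain ⟨x, y, rfl, rfl, hxy⟩ := hK
      obtain ⟨hx, hy⟩ := K_lt hW hxy
      rw [hp1 x hx, hp1 y hy]
      exact hge.proper x y hxy
    · rw [hpphi u v huv hK, hpphi v u huv.symm (fun h => hK (hKEs _ _ h))]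
      exact hp'.proper _ _ (hext u v huv hK).1
  · intro s
    have hAKadj : ∀ u v, KE u v ∧ form s (p u) = form s (p v) →
        (slopeGraph P.K e s).Adj (lab u) (lab v) ∧ ψ (lab u) = u ∧ ψ (lab v) = v ∧
          lab u < P.N ∧ lab v < P.N := by
      rintro u v ⟨hK, hf⟩
      rw [hKE] at hK
      obtain ⟨x, y, rfl, rfl, hxy⟩ := hK
      obtain ⟨hx, hy⟩ := K_lt hW hxy
      rw [hp1 x hx, hp1 y hy] at hf
      rw [hlab x hx, hlab y hy]
      exact ⟨⟨hxy, hf⟩, rfl, rfl, hx, hy⟩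
    let AK : SimpleGraph V :=
      { Adj := fun u v => KE u v ∧ form s (p u) = form s (p v)
        symm := ⟨fun u v h => ⟨hKEs _ _ h.1, h.2.symm⟩⟩
        loopless := ⟨fun u h => (hAKadj u u h).1.ne rfl⟩ }
    have hAK : ∀ u v, AK.Adj u v ↔ KE u v ∧ form s (p u) = form s (p v) := fun _ _ => Iff.rfl
    let BQ : SimpleGraph V :=
      { Adj := fun u v => ∃ b c, (slopeGraph P.Q (fun b => p' (ψ (rep b))) s).Adj b c ∧
          ψ (rep b) = u ∧ ψ (rep c) = v
        symm := ⟨fun u v h => by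
          obtain ⟨b, c, h, hb, hc⟩ := h
          exact ⟨c, b, h.symm, hc, hb⟩⟩
        loopless := ⟨fun u h => by
          obtain ⟨b, c, h, hb, hc⟩ := h
          exact (hQ b c h.1).ne (hb.trans hc.symm)⟩ }
    have hBQ : ∀ u v, BQ.Adj u v ↔ ∃ b c, (slopeGraph P.Q (fun b => p' (ψ (rep b))) s).Adj b c ∧
          ψ (rep b) = u ∧ ψ (rep c) = v := fun _ _ => Iff.rfl
    have hAnot : ∀ u v, (slopeGraph G p s).Adj u v → ¬ AK.Adj u v → ¬ KE u v := by
      intro u v h hn hK
      exact hn ((hAK u v).2 ⟨hK, h.2⟩)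
    refine h1 V V (slopeGraph G p s) AK (slopeGraph (contract G phi) p' s) BQ phi
      ?_ ?_ (hp'.forest s) ?_ ?_ ?_ ?_
    · intro u v huv
      rw [hAK] at huv
      refine ⟨?_, huv.2⟩
      obtain ⟨x, y, rfl, rfl, hxy⟩ := (hKE _ _).1 huv.1
      exact K_adj hP hxy
    · intro u v huv
      rw [hBQ] at huv
      obtain ⟨b, c, hbc, rfl, rfl⟩ := huv
      exact ⟨hQ b c hbc.1, hbc.2⟩
    · refine acyclic_of_map (H' := slopeGraph P.K e s) lab ?_ ?_ (hge.forest s)
      · intro u v huv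
        exact (hAKadj u v huv).1
      · intro u v u' v' huv huv' h
        obtain ⟨_, k1, k2, _⟩ := hAKadj u v huv
        obtain ⟨_, k1', k2', _⟩ := hAKadj u' v' huv'
        have h4 : Sym2.map ψ s(lab u, lab v) = Sym2.map ψ s(lab u', lab v') := by rw [h]
        rw [Sym2.map_mk, Sym2.map_mk] at h4
        simpa only [k1, k2, k1', k2'] using h4
    · intro u v huv hn
      have hK := hAnot u v huv hn
      refine ⟨⟨(hext u v huv.1 hK).1, ?_⟩, ?_⟩
      · rw [← hpphi u v huv.1 hK, ← hpphi v u huv.1.symm (fun h => hK (hKEs _ _ h))]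
        exact huv.2
      · intro h
        rw [hBQ] at h
        obtain ⟨b, c, hbc, hb, hc⟩ := h
        exact (hext u v huv.1 hK).2 b c hbc.1 hb.symm hc.symm
    · intro u v u' v' huv hn huv' hn' h
      have hK := hAnot u v huv hn
      have hK' := hAnot u' v' huv' hn'
      rw [Sym2.eq_iff] at h ⊢
      rcases h with ⟨ha, hb⟩ | ⟨ha, hb⟩
      · left
        exact hedge u v u' v' huv.1 hK huv'.1 hK' ha hb
      · right
        exact hedge u v v' u' huv.1 hK huv'.1.symm (fun h => hK' (hKEs _ _ h)) ha hb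
    · intro u v huv hu hv
      by_cases huv' : u = v
      · subst huv'
        exact SimpleGraph.Reachable.refl _
      · obtain ⟨w, hw, hwn⟩ := hu
        obtain ⟨w', hw', hwn'⟩ := hv
        -- both are labels
        have key : ∀ a b, AK.Reachable a b → a ≠ b → ∃ x, x < P.N ∧ ψ x = a := by
          intro a b hab hne
          obtain ⟨q⟩ := hab
          cases q with
          | nil => exact absurd rfl hne
          | cons hadj _ =>
            obtain ⟨_, k1, _, k2, _⟩ := hAKadj _ _ hadj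
            exact ⟨_, k2, k1⟩
        obtain ⟨r, hr, rfl⟩ := key u v huv huv'
        obtain ⟨r', hr', rfl⟩ := key v _ huv.symm (fun h => huv' h.symm)
        have hr1 := hring _ w hw.1 (hAnot _ _ hw hwn) r hr rfl
        have hr1' := hring _ w' hw'.1 (hAnot _ _ hw' hwn') r' hr' rfl
        have h5 : (slopeGraph P.K e s).Reachable (lab (ψ r)) (lab (ψ r')) :=
          reach_map lab (fun x y hxy => (hAKadj x y hxy).1) huv
        rw [hlab r hr, hlab r' hr'] at h5
        have h6 := hreach s r r' hr1 hr1' h5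
        rw [hphi1 r hr, hphi1 r' hr']
        exact reach_map (fun b => ψ (rep b)) (fun x y hxy => (hBQ _ _).2 ⟨x, y, hxy, rfl, rfl⟩) h6

end StrongArb.H36
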